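import Pool.Agent.Lib.MP_b5021c_nt.IfaceE5

/-!
# MP_b5021c_nt, board b5, row E5_NR5: the zero after a load of type B, rough estimates (helper39)
-/

namespace Pool.Agent.B5.H39

open Polynomial Pool.Agent.B5

theorem nr5_main {T T' c h : ℂ} (hT : 1000000 ≤ ‖T‖) (hT' : ‖T‖ / 3 ≤ ‖T'‖) (hh : ‖h‖ ≤ 3)
    (heq : (T - T') * (T' + h) = c * T') :
    ‖T'‖ ≤ ‖T - c‖ + 90001 / 10000 * ‖c‖ / ‖T‖ := by
  have hT0 : 0 < ‖T‖ := by linarith
  have h1 : ‖T‖ / 3 - 3 ≤ ‖T' + h‖ := by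
    have h2 : ‖T'‖ ≤ ‖T' + h‖ + ‖h‖ := by
      have h3 := norm_sub_le (T' + h) h
      rwa [add_sub_cancel_right] at h3
    linarith
  have hne : T' + h ≠ 0 := by
    intro h0
    rw [h0, norm_zero] at h1
    linarith
  have h4 : T' = (T - c) + c * h / (T' + h) := by
    field_simp
    linear_combination -heq
  have h5 : ‖c * h / (T' + h)‖ ≤ 90001 / 10000 * ‖c‖ / ‖T‖ := by
    rw [norm_div, norm_mul, div_le_div_iff₀ (norm_pos_iff.2 hne) hT0]
    have h6 : 3 * ‖T‖ ≤ 90001 / 10000 * ‖T' + h‖ := by nlinarith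
    have h7 : ‖c‖ * ‖h‖ * ‖T‖ ≤ ‖c‖ * 3 * ‖T‖ := by
      have := mul_le_mul_of_nonneg_left hh (norm_nonneg c)
      exact mul_le_mul_of_nonneg_right this hT0.le
    have h8 : ‖c‖ * (3 * ‖T‖) ≤ ‖c‖ * (90001 / 10000 * ‖T' + h‖) :=
      mul_le_mul_of_nonneg_left h6 (norm_nonneg c)
    linarith
  calc ‖T'‖ = ‖(T - c) + c * h / (T' + h)‖ := by rw [← h4]
    _ ≤ ‖T - c‖ + ‖c * h / (T' + h)‖ := norm_add_le _ _
    _ ≤ _ := by linarith

theorem nr5_sq (T c : ℂ) :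
    ‖T - c‖ ^ 2 = ‖T‖ ^ 2 - 2 * (c * (starRingEnd ℂ) T).re + ‖c‖ ^ 2 := by
  rw [← Complex.normSq_eq_norm_sq, ← Complex.normSq_eq_norm_sq, ← Complex.normSq_eq_norm_sq,
    Complex.normSq_apply, Complex.normSq_apply, Complex.normSq_apply]
  simp only [Complex.sub_re, Complex.sub_im, Complex.mul_re, Complex.conj_re, Complex.conj_im]
  ring

theorem nr5 : Nr5S := by
  intro T T' c h hT hT' hh heq
  have hT0 : 0 < ‖T‖ := by linarith
  have hm := nr5_main hT hT' hh heq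
  have hsq := nr5_sq T c
  refine ⟨fun h1 h2 t ht1 ht2 hre => ?_, fun h1 h2 hre => ?_⟩
  · have hc0 : 0 ≤ ‖c‖ := norm_nonneg c
    set s := ‖c‖ with hs
    set θ := ‖T‖ with hθ
    have h3 : ‖T - c‖ ^ 2 ≤ (θ - t * s) ^ 2 + 3 / 4 * s ^ 2 := by
      rw [hsq]
      nlinarith [sq_nonneg s, mul_nonneg (sub_nonneg.2 ht1) (sq_nonneg s)]
    have hts : t * s ≤ θ / 10 := by nlinarith
    have h4 : ‖T - c‖ ≤ θ - t * s + 4167 / 10000 * s ^ 2 / θ := by
      have h5 : 0 ≤ θ - t * s + 4167 / 10000 * s ^ 2 / θ := by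
        have : 0 ≤ 4167 / 10000 * s ^ 2 / θ := by positivity
        linarith
      apply abs_le_of_sq_le_sq' _ h5 |>.2
      refine h3.trans ?_
      have h6 : (θ - t * s + 4167 / 10000 * s ^ 2 / θ) ^ 2 = (θ - t * s) ^ 2 +
          2 * (θ - t * s) * (4167 / 10000 * s ^ 2 / θ) + (4167 / 10000 * s ^ 2 / θ) ^ 2 := by ring
      rw [h6]
      have h7 : 3 / 4 * s ^ 2 ≤ 2 * (θ - t * s) * (4167 / 10000 * s ^ 2 / θ) := by
        have h8 : 2 * (θ - t * s) * (4167 / 10000 * s ^ 2 / θ) =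
            (2 * (4167 / 10000) * s ^ 2) * ((θ - t * s) / θ) := by ring
        rw [h8]
        have h9 : 9 / 10 ≤ (θ - t * s) / θ := by
          rw [le_div_iff₀ hT0]
          linarith
        nlinarith [sq_nonneg s]
      have h10 := sq_nonneg (4167 / 10000 * s ^ 2 / θ)
      linarith
    have h5 : ‖T'‖ ≤ θ - t * s + (4167 / 10000 * s ^ 2 + 90001 / 10000 * s) / θ := by
      have : (4167 / 10000 * s ^ 2 + 90001 / 10000 * s) / θ =
        4167 / 10000 * s ^ 2 / θ + 90001 / 10000 * s / θ := by ring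
      rw [this]
      linarith
    refine h5.trans ?_
    have h6 : (4167 / 10000 * s ^ 2 + 90001 / 10000 * s) / θ ≤ t * s - t * min s 2 + 1 / 10000 := by
      rw [div_le_iff₀ hT0]
      rcases le_total s 2 with h7 | h7
      · rw [min_eq_left h7]
        nlinarith
      · rw [min_eq_right h7]
        have h8 : 1 / 2 * (s - 2) ≤ t * s - t * 2 := by nlinarith
        have h9 : 4167 / 10000 * s ^ 2 + 90001 / 10000 * s ≤ (1 / 2 * (s - 2) + 1 / 10000) * θ := by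
          nlinarith [mul_nonneg (sub_nonneg.2 h7) (sub_nonneg.2 h2)]
        refine h9.trans (mul_le_mul_of_nonneg_right (by linarith) hT0.le)
    linarith
  · have hc0 : 0 ≤ ‖c‖ := norm_nonneg c
    set s := ‖c‖ with hs
    set θ := ‖T‖ with hθ
    have h3 : (1732 / 1000 : ℝ) ≤ Real.sqrt 3 := by
      rw [show (1732 / 1000 : ℝ) = Real.sqrt ((1732 / 1000) ^ 2) by
        rw [Real.sqrt_sq (by norm_num)]]
      exact Real.sqrt_le_sqrt (by norm_num)
    have h4 : ‖T - c‖ ^ 2 ≤ (23 / 25 * θ) ^ 2 := by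
      rw [hsq]
      have h5 : 866 / 1000 * (s * θ) ≤ (c * (starRingEnd ℂ) T).re := by
        refine le_trans ?_ hre
        have : 0 ≤ s * θ := mul_nonneg hc0 hT0.le
        nlinarith
      nlinarith [mul_nonneg (sub_nonneg.2 h1) (sub_nonneg.2 h2), mul_nonneg (sub_nonneg.2 h1) hT0.le]
    have h5 : ‖T - c‖ ≤ 23 / 25 * θ :=
      abs_le_of_sq_le_sq' h4 (by linarith) |>.2
    have h6 : 90001 / 10000 * s / θ ≤ 7 := by
      rw [div_le_iff₀ hT0]
      linarith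
    linarith

end Pool.Agent.B5.H39
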